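import Mathlib
import Pool.Agent.R266.TS.E
import Pool.Agent.R266.TS.F

set_option autoImplicit false

/-!
# MP_70eb87_co: the coefficients of the minimal recurrence lie in the upper cluster algebra
-/

namespace Pool.Agent.Results.MP_70eb87_co.LaurentRecurrence

open Pool.Agent.H489R3 Pool.Agent.R266.TS

/-- Let `Q` be a finite bipartite quiver without loops, 2-cycles and multiple arrows, with
bipartition `eps`, such that the adjacency matrices of `Γ(Q)` and `Δ(Q)` commute (in particular,
`Q` may be any affinite quiver). Then

* the T-system has a solution `T` in the field of rational functions;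
* for every solution `T`, the family of the values of `T` at the times `2 n`, `2 n + 1` is the
  cluster of a seed reachable from the initial seed by mutations;
* for every solution `T`, every vertex `v` and all recurrence data `(i, N, J)` at `v` with `N`
  least among the data with the same `i`, each `J k` with `k ≤ N + 1` lies in the Laurent
  polynomial ring over `ℤ` of the cluster of every seed `s` reachable from the initial seed by
  mutations, that is, in the upper cluster algebra of `Q`. -/
theorem result {V : Type*} [Fintype V] [DecidableEq V] (Q : BiQuiver V) :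
    (∃ T : V → ℤ → RF V, IsT Q T) ∧
    ∀ T : V → ℤ → RF V, IsT Q T →
      (∀ n : ℤ, Reach Set.univ (seed0 Q) ⟨fun v => T v (2 * n + Q.eps v), exB Q⟩) ∧
      ∀ (v : V) (i : ℤ) (N : ℕ) (J : ℕ → RF V), IsData Q T v i N J →
        (∀ (N' : ℕ) (J' : ℕ → RF V), IsData Q T v i N' J' → N ≤ N') →
        ∀ k ≤ N + 1, ∀ s : Seed V (RF V), Reach Set.univ (seed0 Q) s → J k ∈ LRing s.x :=
  ⟨exists_T Q, fun _ hT => ⟨fun n => belt hT n, fun _ _ _ _ hD hmin _ hk _ hs =>
    main hT hD hmin hk hs⟩⟩

end Pool.Agent.Results.MP_70eb87_co.LaurentRecurrence
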